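import Mathlib.Data.Finset.Powerset
import Mathlib.Data.Nat.Choose.Basic
import Mathlib.Data.Nat.Choose.Sum
import Mathlib.Algebra.BigOperators.Intervals
import Mathlib.Data.Fintype.Card
import Mathlib.Tactic

set_option autoImplicit false

/-!
# MP_e77370_co : the conjectured bound fails for every `q ≥ 2` and every number `t ≥ 3` of families

All families are the `(q+1)`-subsets of one `(q+2)`-subset of `[q+3]`.
-/

namespace Pool.Agent.Results.MP_e77370_co.FailsForThree

open Finset

/-- The admissible parameters of the question: `t ≥ 2`, `q ≥ 1`, `k₁ ≥ k₂ ≥ ⋯ ≥ k_t ≥ q + 1`,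
`n ≥ k₁ + k₂ - q + 1`. -/
def Admissible (t q n : ℕ) (k : ℕ → ℕ) : Prop :=
  2 ≤ t ∧ 1 ≤ q ∧ (∀ i j, 1 ≤ i → i ≤ j → j ≤ t → k j ≤ k i) ∧ q + 1 ≤ k t ∧
    k 1 + k 2 + 1 ≤ n + q

/-- The number `M₁`. -/
def M1 (t q n : ℕ) (k : ℕ → ℕ) : ℤ :=
  (n.choose (k 1) : ℤ) - ∑ j ∈ range q, ((k t).choose j : ℤ) * ((n - k t).choose (k 1 - j) : ℤ) +
    ∑ j ∈ Icc 2 t, ((n - k t).choose (k j - k t) : ℤ)

/-- The number `M₂`. -/
def M2 (t q n : ℕ) (k : ℕ → ℕ) : ℤ :=
  ∑ j ∈ Icc 1 t, ((n - q).choose (k j - q) : ℤ)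

/-- `F₁,…,F_t` are non-empty families of `k_j`-subsets of `[n]`, any two of them (with different
indices) cross-`q`-intersecting. -/
def CrossFamilies (t q n : ℕ) (k : ℕ → ℕ) (F : ℕ → Finset (Finset (Fin n))) : Prop :=
  (∀ j, 1 ≤ j → j ≤ t → (F j).Nonempty ∧ ∀ A ∈ F j, A.card = k j) ∧
    ∀ i j, 1 ≤ i → i ≤ t → 1 ≤ j → j ≤ t → i ≠ j → ∀ A ∈ F i, ∀ B ∈ F j, q ≤ (A ∩ B).card

theorem result : ∀ q t : ℕ, 2 ≤ q → 3 ≤ t →
    ∃ (n : ℕ) (k : ℕ → ℕ) (F : ℕ → Finset (Finset (Fin n))),
      Admissible t q n k ∧ CrossFamilies t q n k F ∧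
        max (M1 t q n k) (M2 t q n k) < ∑ j ∈ Icc 1 t, ((F j).card : ℤ) := by
  intro q t hq ht
  let U : Finset (Fin (q + 3)) := univ.filter (fun i => (i : ℕ) < q + 2)
  have hU : U.card = q + 2 := by
    have : U = (univ : Finset (Fin (q + 2))).image Fin.castSucc := by
      ext x
      simp only [U, mem_filter, mem_univ, true_and, mem_image]
      constructor
      · intro h
        exact ⟨⟨x, h⟩, by simp [Fin.ext_iff]⟩
      · rintro ⟨y, rfl⟩
        exact y.isLt
    rw [this, card_image_of_injective _ (Fin.castSucc_injective _)]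
    simp
  refine ⟨q + 3, fun _ => q + 1, fun _ => powersetCard (q + 1) U, ?_, ?_, ?_⟩
  · refine ⟨by omega, by omega, fun _ _ _ _ _ => le_rfl, le_rfl, ?_⟩
    show q + 1 + (q + 1) + 1 ≤ q + 3 + q
    omega
  · refine ⟨fun j _ _ => ⟨?_, ?_⟩, ?_⟩
    · rw [powersetCard_nonempty]
      omega
    · intro A hA
      exact (mem_powersetCard.1 hA).2
    · intro i j _ _ _ _ _ A hA B hB
      obtain ⟨hA1, hA2⟩ := mem_powersetCard.1 hA
      obtain ⟨hB1, hB2⟩ := mem_powersetCard.1 hB
      have h1 := card_union_add_card_inter A B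
      have h2 : (A ∪ B).card ≤ q + 2 := by
        rw [← hU]
        exact card_le_card (union_subset hA1 hB1)
      omega
  · have hF : (∑ j ∈ Icc 1 t, ((powersetCard (q + 1) U).card : ℤ)) = t * (q + 2) := by
      rw [sum_const, card_powersetCard, hU]
      have : (q + 2).choose (q + 1) = q + 2 := Nat.choose_succ_self_right (q + 1)
      rw [this]
      simp
    have hM2 : M2 t q (q + 3) (fun _ => q + 1) = 3 * t := by
      unfold M2
      have h1 : q + 3 - q = 3 := by omega
      have h2 : q + 1 - q = 1 := by omega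
      simp only [h1, h2]
      simp
      ring
    have hM1 : M1 t q (q + 3) (fun _ => q + 1) = 2 * q + 2 + t := by
      unfold M1
      have h1 : q + 3 - (q + 1) = 2 := by omega
      simp only [h1, Nat.sub_self]
      obtain ⟨r, rfl⟩ : ∃ r, q = r + 1 := ⟨q - 1, by omega⟩
      have h2 : ∑ j ∈ range (r + 1), (((r + 1 + 1).choose j : ℤ) *
          (Nat.choose 2 (r + 1 + 1 - j) : ℤ)) = ((r + 2) * (r + 1) / 2 : ℕ) := by
        rw [sum_range_succ, sum_eq_zero, zero_add]
        · have h3 : r + 1 + 1 - r = 2 := by omega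
          rw [h3]
          have h4 : (r + 1 + 1).choose r = (r + 2) * (r + 1) / 2 := by
            have := Nat.choose_symm (n := r + 2) (k := 2) (by omega)
            have h5 : r + 2 - 2 = r := by omega
            rw [h5] at this
            rw [show r + 1 + 1 = r + 2 by ring, this, Nat.choose_two_right]
            simp
          rw [h4]
          simp
        · intro j hj
          rw [mem_range] at hj
          have : Nat.choose 2 (r + 1 + 1 - j) = 0 := Nat.choose_eq_zero_of_lt (by omega)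
          rw [this]
          simp
      rw [h2]
      have h6 : (r + 1 + 3).choose (r + 1 + 1) = (r + 4) * (r + 3) / 2 := by
        have := Nat.choose_symm (n := r + 4) (k := 2) (by omega)
        have h5 : r + 4 - 2 = r + 2 := by omega
        rw [h5] at this
        rw [show r + 1 + 3 = r + 4 by ring, show r + 1 + 1 = r + 2 by ring, this,
          Nat.choose_two_right]
        simp
      rw [h6]
      have h7 : (r + 4) * (r + 3) / 2 = (r + 2) * (r + 1) / 2 + (2 * r + 5) := by
        have : (r + 4) * (r + 3) = (r + 2) * (r + 1) + 2 * (2 * r + 5) := by ring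
        rw [this, Nat.add_mul_div_left _ _ (by norm_num)]
      rw [h7]
      simp
      push_cast
      have h8 : ((t - 1 : ℕ) : ℤ) = (t : ℤ) - 1 := by
        omega
      rw [h8]
      ring
    rw [hF, hM1, hM2]
    have hq' : (2 : ℤ) ≤ q := by exact_mod_cast hq
    have ht' : (3 : ℤ) ≤ t := by exact_mod_cast ht
    rw [max_lt_iff]
    constructor
    · nlinarith
    · nlinarith

end Pool.Agent.Results.MP_e77370_co.FailsForThree
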